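import Pool.Agent.W973.CES.Defs

set_option autoImplicit false

namespace Pool.Agent.W14.CES

open Pool.Agent.W973.CES Pool.Agent.NPC

theorem sw {n : ℕ} {f g : ℕ → ℕ} (hI : IsM n f g) (hf : ∀ x < n, f x / 2 = x / 2)
    (k : ℕ) (hk : 2 * k + 1 < n) :
    (f (2 * k) = 2 * k ∧ f (2 * k + 1) = 2 * k + 1 ∧ g (2 * k) = 2 * k ∧
      g (2 * k + 1) = 2 * k + 1) ∨
    (f (2 * k) = 2 * k + 1 ∧ f (2 * k + 1) = 2 * k ∧ g (2 * k) = 2 * k + 1 ∧
      g (2 * k + 1) = 2 * k) := by
  have h0 := hf (2 * k) (by omega)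
  have h1 := hf (2 * k + 1) hk
  have g0 := hI.gf (2 * k) (by omega)
  have g1 := hI.gf (2 * k + 1) hk
  have a0 : f (2 * k) = 2 * k ∨ f (2 * k) = 2 * k + 1 := by omega
  have a1 : f (2 * k + 1) = 2 * k ∨ f (2 * k + 1) = 2 * k + 1 := by omega
  rcases a0 with a0 | a0 <;> rcases a1 with a1 | a1
  · rw [a0] at g0; rw [a1] at g1; omega
  · rw [a0] at g0; rw [a1] at g1; left; exact ⟨a0, a1, g0, g1⟩
  · rw [a0] at g0; rw [a1] at g1; right; exact ⟨a0, a1, g1, g0⟩
  · rw [a0] at g0; rw [a1] at g1; omega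

theorem mlt (φ : CNF) (i : ℕ) (hi : i < n3 φ) (hn : nx i ≠ i) :
    Lt (topM φ (2 * i)) (2 * nx i + 1) (2 * i + 1) := by
  have e : topM φ (2 * i) = [2 * i, 2 * nx i + 1, 2 * i + 1] := by
    have h2 : 2 * i / 2 = i := by omega
    have h3 : 2 * i % 2 = 0 := by omega
    simp only [topM, h2, h3, hi, and_self, if_true]
  rw [e]
  left
  have e1 : (2 * i) ≠ 2 * nx i + 1 := by omega
  have e2 : (2 * i) ≠ 2 * i + 1 := by omega
  have e3 : (2 * nx i + 1) ≠ 2 * i + 1 := by omega
  rw [List.idxOf_cons_ne _ e1, List.idxOf_cons_self, List.idxOf_cons_ne _ e2,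
    List.idxOf_cons_ne _ e3, List.idxOf_cons_self]
  omega

theorem wlt1 (φ : CNF) (i : ℕ) (hi : i < n3 φ) (hv : vr φ i ≠ i) :
    Lt (topW φ (2 * i + 1)) (2 * vr φ i + 1) (2 * i + 1) := by
  have e : topW φ (2 * i + 1) = [2 * i, 2 * vr φ i + 1, 2 * i + 1] := by
    have h2 : (2 * i + 1) / 2 = i := by omega
    have h3 : (2 * i + 1) % 2 ≠ 0 := by omega
    simp only [topW, h2, hi, if_true]
    rw [if_neg h3]
  rw [e]
  left
  have e1 : (2 * i) ≠ 2 * vr φ i + 1 := by omega
  have e2 : (2 * i) ≠ 2 * i + 1 := by omega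
  have e3 : (2 * vr φ i + 1) ≠ 2 * i + 1 := by omega
  rw [List.idxOf_cons_ne _ e1, List.idxOf_cons_self, List.idxOf_cons_ne _ e2,
    List.idxOf_cons_ne _ e3, List.idxOf_cons_self]
  omega

theorem mem_occ (φ : CNF) (i : ℕ) (hi : i < n3 φ) :
    2 * i + 1 ∈ occ φ (vr φ i) (lit φ i).1 := by
  unfold occ
  refine List.mem_map.2 ⟨i, List.mem_filter.2 ⟨List.mem_range.2 hi, ?_⟩, rfl⟩
  simp

theorem wlt2 (φ : CNF) (x v a : ℕ) (hx : x / 2 = v) (hv : n3 φ ≤ v)
    (ha : a ∈ occ φ v (decide (x % 2 = 0))) (ha' : ∀ j ∈ occ φ v (decide (x % 2 = 0)), j / 2 < n3 φ)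
    (hr : a ≠ 2 * v) :
    Lt (topW φ x) a (2 * v + 1) := by
  have e : topW φ x = 2 * v :: (occ φ v (decide (x % 2 = 0)) ++ [2 * v + 1]) := by
    have h2 : ¬ (x / 2 < n3 φ) := by omega
    simp only [topW]
    rw [if_neg h2, hx]
  rw [e]
  left
  have e1 : (2 * v) ≠ 2 * v + 1 := by omega
  have e2 : 2 * v + 1 ∉ occ φ v (decide (x % 2 = 0)) := by
    intro h
    have := ha' _ h
    omega
  rw [List.idxOf_cons_ne _ hr.symm, List.idxOf_cons_ne _ e1, List.idxOf_append_of_mem ha,
    List.idxOf_append_of_notMem e2]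
  have := List.idxOf_lt_length_of_mem ha
  omega

theorem occ_lt (φ : CNF) (v : ℕ) (s : Bool) : ∀ j ∈ occ φ v s, j / 2 < n3 φ := by
  intro j hj
  unfold occ at hj
  obtain ⟨i, hi, rfl⟩ := List.mem_map.1 hj
  have := List.mem_range.1 (List.mem_filter.1 hi).1
  omega

theorem snd (h : S_TOP) : S_SND := by
  intro φ f g hI hf hW hM
  obtain ⟨hn, hv, -⟩ := h φ
  have hNN : NN φ = 4 * n3 φ := rfl
  refine ⟨?_, ?_⟩
  · intro c hc
    by_contra hcon
    push Not at hcon
    have hk : ∀ k < 3, f (2 * (3 * c + k)) = 2 * (3 * c + k) + 1 := by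
      intro k hk
      rcases sw hI hf (3 * c + k) (by omega) with h | h
      · exact absurd h.1 (hcon k hk)
      · exact h.1
    have f0 : f (2 * (3 * c)) = 2 * (3 * c) + 1 := hk 0 (by omega)
    have f1 := hk 1 (by omega)
    have f2 := hk 2 (by omega)
    have n0 : nx (3 * c) = 3 * c + 1 := by unfold nx; omega
    have n1 : nx (3 * c + 1) = 3 * c + 2 := by unfold nx; omega
    have n2 : nx (3 * c + 2) = 3 * c := by unfold nx; omega
    have m0 := mlt φ (3 * c) (by omega) (by omega)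
    have m1 := mlt φ (3 * c + 1) (by omega) (by omega)
    have m2 := mlt φ (3 * c + 2) (by omega) (by omega)
    rw [n0] at m0
    rw [n1] at m1
    rw [n2] at m2
    refine hM (2 * (3 * c)) (by omega) (2 * (3 * c + 1)) (by omega) (2 * (3 * c + 2)) (by omega)
      (by omega) (by omega) (by omega) ⟨?_, ?_, ?_⟩
    · rw [f0, f1]; exact m0
    · rw [f1, f2]; exact m1
    · rw [f2, f0]; exact m2
  · intro i hi hfi
    obtain ⟨hv1, hv2, -, -⟩ := hv i hi
    set v := vr φ i with hvdef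
    have hi' : g (2 * i + 1) = 2 * i + 1 := by
      rcases sw hI hf i (by omega) with h | h
      · exact h.2.2.2
      · omega
    have w1 : Lt (topW φ (2 * i + 1)) (2 * v + 1) (2 * i + 1) := wlt1 φ i hi (by omega)
    have hocc := mem_occ φ i hi
    rw [← hvdef] at hocc
    constructor
    · intro hfv
      by_contra hs
      have hs' : (lit φ i).1 = false := by simpa using hs
      rw [hs'] at hocc
      have hg : g (2 * v + 1) = 2 * v + 1 := by
        rcases sw hI hf v (by omega) with h | h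
        · exact h.2.2.2
        · omega
      have hd : decide ((2 * v + 1) % 2 = 0) = false := by
        have : (2 * v + 1) % 2 ≠ 0 := by omega
        simpa using this
      have w2 := wlt2 φ (2 * v + 1) v (2 * i + 1) (by omega) hv1 (by rw [hd]; exact hocc)
        (occ_lt φ v _) (by omega)
      exact hW (2 * i + 1) (by omega) (2 * v + 1) (by omega) ⟨by rw [hi', hg]; exact w1,
        by rw [hi', hg]; exact w2⟩
    · intro hs
      by_contra hfv
      rw [hs] at hocc
      have hg : g (2 * v) = 2 * v + 1 := by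
        rcases sw hI hf v (by omega) with h | h
        · exact absurd h.1 hfv
        · exact h.2.2.1
      have hd : decide ((2 * v) % 2 = 0) = true := by
        have : (2 * v) % 2 = 0 := by omega
        simpa using this
      have w2 := wlt2 φ (2 * v) v (2 * i + 1) (by omega) hv1 (by rw [hd]; exact hocc)
        (occ_lt φ v _) (by omega)
      exact hW (2 * i + 1) (by omega) (2 * v) (by omega) ⟨by rw [hi', hg]; exact w1,
        by rw [hi', hg]; exact w2⟩

end Pool.Agent.W14.CES
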